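import Pool.Agent.H71.PX.Targets

/-!
# Prefix classes (MP_64fb07_lc): row AX, universal quantifiers
-/

set_option autoImplicit false

open Pool.Agent.H71.PX

namespace Pool.Agent.H89.PX.AX

/-- universal quantifiers -/
theorem pf_AX : T_AX := by
  intro α R φ k b
  induction b generalizing k with
  | zero =>
    intro v
    show φ.Sat R v ↔ _
    constructor
    · intro h c hc
      have e : c = v := funext fun i => hc i (by omega)
      rw [e]
      exact h
    · intro h
      exact h v fun _ _ => rfl
  | succ b ih =>
    intro v
    have e : List.replicate (b + 1) true = true :: List.replicate b true := rfl
    rw [e]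
    show (∀ a, Pre R φ (List.replicate b true) (k + 1) (Function.update v k a)) ↔ _
    constructor
    · intro h c hc
      refine (ih (k + 1) (Function.update v k (c k))).1 (h (c k)) c fun i hi => ?_
      by_cases hik : i = k
      · subst hik
        rw [Function.update_self]
      · rw [Function.update_of_ne hik]
        exact hc i (by omega)
    · intro h a
      refine (ih (k + 1) (Function.update v k a)).2 fun c hc => h c fun i hi => ?_
      have h1 := hc i (by omega)
      rw [Function.update_of_ne (by omega)] at h1
      exact h1

end Pool.Agent.H89.PX.AX
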